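import Mathlib

/-! Casimir trace and commutator for a monogenic extension; the Herbrand count. -/

open Module

namespace Pool.Agent.Lib.MP_9e3d42_al.TW

lemma herbrand {B N : Type*} [Ring B] [AddCommGroup N] [Module B N] [IsArtinian B N]
    [IsNoetherian B N] (u t : N →ₗ[B] N) (h1 : LinearMap.range t ≤ LinearMap.ker u)
    (h2 : LinearMap.ker t = LinearMap.range u) : LinearMap.ker u = LinearMap.range t := by
  have k : ∀ s : N →ₗ[B] N, Module.length B N =
      Module.length B (LinearMap.ker s) + Module.length B (LinearMap.range s) := fun s =>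
    Module.length_eq_add_of_exact (LinearMap.ker s).subtype s.rangeRestrict
      (Submodule.subtype_injective _) s.surjective_rangeRestrict
      (by rw [LinearMap.exact_iff, LinearMap.ker_rangeRestrict, Submodule.range_subtype])
  have e := (k u).symm.trans (k t)
  rw [h2, add_comm (Module.length B (LinearMap.range u))] at e
  have e2 := WithTop.add_right_cancel Module.length_ne_top e
  rw [Module.length_submodule, Module.length_submodule] at e2
  by_contra hne
  exact (Submodule.height_strictMono (lt_of_le_of_ne h1 (Ne.symm hne))).ne e2.symm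

variable {B A : Type*} [CommRing B] [CommRing A] [Algebra B A]

/-- Dual bases for a power basis. -/
structure Cas (B A : Type*) [CommRing B] [CommRing A] [Algebra B A] where
  d : ℕ
  w : A
  b : Fin d → A
  τ : A →ₗ[B] B
  h1 : ∀ y, ∑ j, τ (b j * y) • w ^ (j : ℕ) = y
  h2 : ∀ y, ∑ j : Fin d, τ (w ^ (j : ℕ) * y) • b j = y
  h3 : ∀ (i : Fin d) (c : Fin d → B), τ (b i * ∑ j, c j • w ^ (j : ℕ)) = c i

lemma exists_cas [Nontrivial A] (pb : PowerBasis B A) : ∃ C : Cas B A, C.w = pb.gen := by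
  have hd := pb.dim_pos
  let τ := pb.basis.coord ⟨pb.dim - 1, by omega⟩
  have key : ∀ (n : ℕ) (j : Fin pb.dim), j + n + 1 = pb.dim →
      ∃ b : A, ∀ y, τ (b * y) = pb.basis.repr y j := by
    intro n
    induction n with
    | zero => exact fun j hj => ⟨1, fun y => by
        rw [one_mul, show j = ⟨pb.dim - 1, by omega⟩ from Fin.ext (by simp; omega)]; rfl⟩
    | succ n ih =>
      intro j hj
      obtain ⟨b, hb⟩ := ih ⟨j + 1, by omega⟩ (by simp; omega)
      refine ⟨b * pb.gen - algebraMap B A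
        (pb.basis.repr (pb.gen ^ pb.dim) ⟨j + 1, by omega⟩), fun y => ?_⟩
      refine LinearMap.congr_fun (f := τ ∘ₗ LinearMap.mulLeft B _) (g := pb.basis.coord j)
        (pb.basis.ext fun i => ?_) y
      simp only [LinearMap.comp_apply, LinearMap.mulLeft_apply, sub_mul, map_sub, mul_assoc, hb,
        ← Algebra.smul_def, map_smul, τ, Basis.coord_apply, Basis.repr_self, smul_eq_mul,
        Finsupp.single_apply]
      rw [pb.basis_eq_pow, ← pow_succ']
      by_cases hi : (i : ℕ) + 1 = pb.dim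
      · rw [hi, if_pos (Fin.ext (by simp; omega)), if_neg (by rintro rfl; omega), mul_one, sub_self]
      · have := i.2
        rw [if_neg (fun e => hi (by have := congrArg Fin.val e; simp at this; omega)), mul_zero,
          sub_zero, show pb.gen ^ ((i : ℕ) + 1) = pb.basis ⟨i + 1, by omega⟩ from
          (pb.basis_eq_pow ⟨i + 1, by omega⟩).symm, Basis.repr_self, Finsupp.single_apply]
        simp [Fin.ext_iff]
  choose b hb using fun j : Fin pb.dim => key (pb.dim - 1 - j) j (by have := j.2; omega)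
  have h1 : ∀ y, ∑ j, τ (b j * y) • pb.gen ^ (j : ℕ) = y := fun y => by
    simp only [hb, ← pb.basis_eq_pow, Basis.sum_repr]
  refine ⟨⟨pb.dim, pb.gen, b, τ, h1, fun y => pb.basis.ext_elem fun i => ?_, fun i c => ?_⟩, rfl⟩
  · rw [← hb, ← hb]
    conv_rhs => rw [← h1 (b i)]
    simp only [Finset.sum_mul, map_sum, smul_mul_assoc, map_smul,
      smul_eq_mul, mul_comm (b i), mul_comm (τ (pb.gen ^ _ * y))]
  · rw [hb]
    simp only [← pb.basis_eq_pow]
    exact congrFun (pb.basis.repr_sum_self c) i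

variable (C : Cas B A) {P G : Type*} [AddCommGroup P] [Module A P] [Module B P]
  [IsScalarTower B A P] [AddCommGroup G] [Module A G] [Module B G] [IsScalarTower B A G]

/-- The commutator with `r`. -/
def com (B : Type*) [CommRing B] [Algebra B A] [Module B P] [IsScalarTower B A P] [Module B G]
    [IsScalarTower B A G] (r : A) : (P →ₗ[B] G) →ₗ[B] P →ₗ[B] G :=
  LinearMap.llcomp B P G G (Algebra.lsmul B B G r) - LinearMap.lcomp B G (Algebra.lsmul B B P r)

@[simp] lemma com_apply (r : A) (φ : P →ₗ[B] G) (m : P) :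
    com B r φ m = r • φ m - φ (r • m) := rfl

/-- The Casimir trace. -/
def Cas.tr : (P →ₗ[B] G) →ₗ[B] P →ₗ[B] G :=
  ∑ j, LinearMap.llcomp B P G G (Algebra.lsmul B B G (C.b j)) ∘ₗ
    LinearMap.lcomp B G (Algebra.lsmul B B P (C.w ^ (j : ℕ)))

lemma Cas.tr_apply (φ : P →ₗ[B] G) (m : P) :
    C.tr φ m = ∑ j, C.b j • φ (C.w ^ (j : ℕ) • m) := by
  simp only [Cas.tr, LinearMap.sum_apply]
  rfl

lemma Cas.tr_smul (φ : P →ₗ[B] G) (r : A) (m : P) : C.tr φ (r • m) = r • C.tr φ m := by
  simp only [C.tr_apply, Finset.smul_sum, smul_smul]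
  have : ∀ j : Fin C.d, C.b j • φ ((C.w ^ (j : ℕ) * r) • m) =
      ∑ i, (C.τ (C.w ^ (j : ℕ) * (r * C.b i)) • C.b j) • φ (C.w ^ (i : ℕ) • m) := fun j => by
    conv_lhs => rw [← C.h1 (C.w ^ (j : ℕ) * r)]
    simp only [Finset.sum_smul, map_sum, Finset.smul_sum, smul_assoc, map_smul]
    refine Finset.sum_congr rfl fun i _ => ?_
    rw [smul_comm, show C.b i * (C.w ^ (j : ℕ) * r) = C.w ^ (j : ℕ) * (r * C.b i) by ring]
  rw [Finset.sum_congr rfl fun j _ => this j, Finset.sum_comm]
  simp only [← Finset.sum_smul, C.h2]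

lemma Cas.com_tr (r : A) (φ : P →ₗ[B] G) : com B r (C.tr φ) = 0 :=
  LinearMap.ext fun m => by simp [C.tr_smul]

lemma Cas.tr_com (r : A) (φ : P →ₗ[B] G) : C.tr (com B r φ) = 0 :=
  LinearMap.ext fun m => by
    have := C.tr_smul φ r m
    simp only [C.tr_apply, Finset.smul_sum] at this
    simp only [C.tr_apply, com_apply, smul_sub, Finset.sum_sub_distrib, LinearMap.zero_apply,
      smul_comm (C.b _) r, smul_comm r (C.w ^ _), this, sub_self]

lemma Cas.com_pow (φ : P →ₗ[B] G) (n : ℕ) : ∃ ψ, com B (C.w ^ n) φ = com B C.w ψ := by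
  induction n with
  | zero => exact ⟨0, LinearMap.ext fun m => by simp⟩
  | succ n ih =>
    obtain ⟨ψ, h⟩ := ih
    refine ⟨Algebra.lsmul B B G (C.w ^ n) ∘ₗ φ + ψ ∘ₗ Algebra.lsmul B B P C.w,
      LinearMap.ext fun m => ?_⟩
    have := LinearMap.congr_fun h (C.w • m)
    simp only [com_apply, smul_smul] at this
    simp only [com_apply, LinearMap.add_apply, LinearMap.comp_apply, Algebra.lsmul_coe, smul_add,
      smul_smul, pow_succ, mul_comm C.w (C.w ^ n)]
    rw [← sub_eq_zero, ← sub_eq_zero.2 this]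
    abel

lemma Cas.lin {φ : P →ₗ[B] G} (h : com B C.w φ = 0) (r : A) (m : P) : φ (r • m) = r • φ m := by
  have k : ∀ (n : ℕ) m, φ (C.w ^ n • m) = C.w ^ n • φ m := fun n => by
    induction n with
    | zero => simp
    | succ n ih =>
      intro m
      have := LinearMap.congr_fun h m
      rw [com_apply, LinearMap.zero_apply, sub_eq_zero] at this
      rw [pow_succ, mul_smul, ih, ← this, mul_smul]
  rw [← C.h1 r]
  simp only [Finset.sum_smul, map_sum, smul_assoc, map_smul, k]

/-- The `A`-linear map attached to a `B`-linear map commuting with the generator. -/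
def Cas.toLin {φ : P →ₗ[B] G} (h : com B C.w φ = 0) : P →ₗ[A] G :=
  { φ with map_smul' := C.lin h }

/-- The map `v ↦ ∑ τ (v k) • g k`. -/
def Cas.el {n : ℕ} (g : Fin n → G) : (Fin n → A) →ₗ[B] G :=
  ∑ k, (LinearMap.toSpanSingleton B G (g k)) ∘ₗ C.τ ∘ₗ LinearMap.proj k

omit [Module A G] [IsScalarTower B A G] in
lemma Cas.el_apply {n : ℕ} (g : Fin n → G) (v : Fin n → A) :
    C.el g v = ∑ k, C.τ (v k) • g k := by
  simp [Cas.el, LinearMap.sum_apply]

lemma Cas.tr_el {n : ℕ} (g : Fin n → G) (v : Fin n → A) :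
    C.tr (C.el g) v = ∑ k, v k • g k := by
  simp only [C.tr_apply, C.el_apply, Finset.smul_sum]
  rw [Finset.sum_comm]
  refine Finset.sum_congr rfl fun k _ => ?_
  conv_rhs => rw [← C.h2 (v k)]
  simp only [Finset.sum_smul, smul_assoc, Pi.smul_apply, smul_eq_mul, smul_comm (C.b _)]

lemma Cas.free0 {n : ℕ} {φ : (Fin n → A) →ₗ[B] G} (h : com B C.w φ = 0) : ∃ ψ, C.tr ψ = φ :=
  ⟨C.el fun k => φ (Pi.single k 1), LinearMap.ext fun v => by
    rw [C.tr_el]
    conv_rhs => rw [pi_eq_sum_univ' v]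
    simp only [map_sum, C.lin h]⟩

lemma Cas.free1 {n : ℕ} {φ : (Fin n → A) →ₗ[B] G} (h : C.tr φ = 0) :
    ∃ ψ, com B C.w ψ = φ := by
  let g : Fin C.d → Fin n → G := fun j k => φ (Pi.single k (C.b j))
  choose ψ hψ using fun j : Fin C.d => C.com_pow (C.el (g j)) j
  let γ : Fin n → G := fun k => ∑ j : Fin C.d, C.w ^ (j : ℕ) • g j k
  have e : φ = C.el γ - com B C.w (∑ j, ψ j) := LinearMap.ext fun v => by
    simp only [map_sum, ← hψ, LinearMap.sub_apply, LinearMap.sum_apply, com_apply, C.el_apply, γ,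
      Finset.smul_sum, Finset.sum_sub_distrib, smul_comm (C.w ^ _) (C.τ _), Pi.smul_apply,
      smul_eq_mul]
    rw [Finset.sum_comm, sub_sub_cancel, Finset.sum_comm]
    conv_lhs => rw [← Finset.univ_sum_single v, map_sum]
    refine Finset.sum_congr rfl fun k _ => ?_
    conv_lhs => rw [← C.h2 (v k)]
    simp only [g, ← map_smul, ← map_sum, ← Pi.single_smul]
    congr 1
    exact map_sum (LinearMap.single B (fun _ => A) k) _ _
  have hγ : γ = 0 := funext fun k => by
    have := LinearMap.congr_fun (e ▸ h) (Pi.single k 1)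
    rw [map_sub, C.tr_com, sub_zero, C.tr_el, Finset.sum_eq_single k
      (fun j _ hj => by simp [hj]) (by simp)] at this
    simpa using this
  refine ⟨-∑ j, ψ j, ?_⟩
  rw [e, hγ, map_neg, show C.el (0 : Fin n → G) = 0 from
    LinearMap.ext fun v => by simp [C.el_apply], zero_sub]

end Pool.Agent.Lib.MP_9e3d42_al.TW
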