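import Pool.Agent.Lib.MP_9e3d42_al.TW.Step
import Pool.Agent.Lib.MP_9e3d42_al.CT.Main

/-! Towers of monogenic extensions over a codimension two complete intersection. -/

open Module TensorProduct IsLocalRing

universe v w

namespace Pool.Agent.Lib.MP_9e3d42_al.TW

open CT

variable {O : Type*} [CommRing O] [IsDomain O] [IsDiscreteValuationRing O] {x : O}

lemma lift_of_tf {R M : Type*} [CommRing R] [Algebra O R] [AddCommGroup M] [Module O M]
    [Module R M] [IsScalarTower O R M] [Module.Free O M] [Module.Finite O M]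
    [Module.Finite O (M ⊗[R] Dual R M)] [IsTorsionFree O (M ⊗[R] Dual R M)] {l : R →ₗ[O] O}
    (h : Function.Bijective ((LinearMap.mul O R).compr₂ l)) : Lift R (algebraMap O R x) M := by
  intro c N hN φb
  simp only [← map_pow, algebraMap_smul] at hN
  generalize x ^ c = a at hN
  obtain ⟨φ, hφ⟩ := Module.projective_lifting_property (N.mkQ.restrictScalars O)
    (φb.restrictScalars O) N.mkQ_surjective
  have hφ' : ∀ m, N.mkQ (φ m) = φb m := LinearMap.congr_fun hφ
  let β : M →ₗ[O] Dual R M →ₗ[O] O ⧸ Ideal.span {a} := LinearMap.mk₂ O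
    (fun m ξ => (Ideal.span {a}).mkQ (l (ξ (φ m)))) (by simp) (by simp [-smul_eq_mul])
    (by simp) (by simp [-smul_eq_mul])
  let β' := TensorProduct.liftAddHom (R := R) (LinearMap.toAddMonoidHom'.comp β.toAddMonoidHom)
    fun r m ξ => by
      obtain ⟨u, hu⟩ := (hN (r • φ m - φ (r • m))).1 ((Submodule.Quotient.mk_eq_zero N).1 (by
        rw [← N.mkQ_apply, map_sub, map_smul, hφ', hφ', map_smul, sub_self]))
      refine ((Submodule.Quotient.eq _).2 ?_).symm
      change l (r • ξ (φ m)) - l (ξ (φ (r • m))) ∈ _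
      rw [← map_smul, ← map_sub, ← map_sub, ← hu, LinearMap.map_smul_of_tower, map_smul]
      exact Ideal.mul_mem_right _ _ (Ideal.mem_span_singleton_self a)
  have hβ : ∀ m ξ, β' (m ⊗ₜ ξ) = β m ξ := fun _ _ => rfl
  obtain ⟨τ, hτ⟩ := Module.projective_lifting_property (Ideal.span {a}).mkQ
    ({ β' with
      map_smul' := fun o w => by
        change β' (o • w) = o • β' w
        induction w with
        | zero => simp
        | tmul m ξ => rw [TensorProduct.smul_tmul', hβ, hβ, map_smul, LinearMap.smul_apply]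
        | add v w hv hw => rw [smul_add, map_add, map_add, hv, hw, smul_add] } :
      M ⊗[R] Dual R M →ₗ[O] _) (Submodule.mkQ_surjective _)
  let b := Module.Free.chooseBasis O M
  choose ξ hξ using fun i => dual_onto h (b.coord i)
  let φ0 : End O M := b.equivFun.symm.toLinearMap ∘ₗ LinearMap.pi fun i =>
    τ ∘ₗ ((TensorProduct.mk R M _).flip (ξ i)).restrictScalars O
  have k2 : ∀ m i, b.repr (φ0 m) i = τ (m ⊗ₜ ξ i) := fun m i =>
    congrFun (b.equivFun.apply_symm_apply _) i
  have k3 : ∀ ζ : Dual R M, ζ = ∑ i, l (ζ (b i)) • ξ i := fun ζ => LinearMap.ext fun m =>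
    h.1 (LinearMap.ext fun r => by
      have : ∀ i, l (ξ i m * r) = b.repr (r • m) i := fun i => by
        rw [mul_comm, ← smul_eq_mul, ← map_smul, hξ]; rfl
      simp only [LinearMap.compr₂_apply, LinearMap.mul_apply', LinearMap.sum_apply,
        LinearMap.smul_apply, map_sum, map_smul, this]
      rw [mul_comm, ← smul_eq_mul, ← map_smul]
      conv_lhs => rw [← b.sum_repr (r • m), map_sum, map_sum]
      simp only [LinearMap.map_smul_of_tower, smul_eq_mul, mul_comm])
  have k4 : ∀ m (ζ : Dual R M), l (ζ (φ0 m)) = τ (m ⊗ₜ ζ) := fun m ζ => by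
    nth_rw 2 [k3 ζ]
    rw [← b.sum_repr (φ0 m)]
    simp [TensorProduct.tmul_sum, k2, mul_comm]
  have k5 : ∀ (r : R) m, φ0 (r • m) = r • φ0 m := fun r m => b.ext_elem fun i => by
    have := k4 m (r • ξ i)
    rw [← TensorProduct.smul_tmul, ← k2, LinearMap.smul_apply, ← map_smul, hξ] at this
    exact this.symm
  have k6 : ∀ m i, ∃ c, a * c = b.repr (φ m) i - b.repr (φ0 m) i := fun m i => by
    have := LinearMap.congr_fun hτ (m ⊗ₜ ξ i)
    rw [LinearMap.comp_apply, ← k2] at this
    obtain ⟨c, hc⟩ := Ideal.mem_span_singleton.1 ((Submodule.Quotient.eq _).1 this.symm)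
    exact ⟨c, by rw [← hc, hξ]; rfl⟩
  choose c hc using k6
  refine ⟨{ φ0 with map_smul' := k5 }, LinearMap.ext fun m => ?_⟩
  rw [← hφ']
  refine ((Submodule.Quotient.eq N).2 ((hN _).2 ⟨b.equivFun.symm (c m), b.ext_elem fun i => ?_⟩)).symm
  rw [map_smul, map_sub, Finsupp.sub_apply, Finsupp.smul_apply,
    ← b.equivFun_apply (b.equivFun.symm _), LinearEquiv.apply_symm_apply, smul_eq_mul, hc]
  rfl

lemma tf_of (hx : Irreducible x) {M : Type*} [AddCommGroup M] [Module O M]
    (h : ∀ m : M, x • m = 0 → m = 0) : IsTorsionFree O M := ⟨fun a ha => by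
  obtain ⟨n, u, rfl⟩ := IsDiscreteValuationRing.eq_unit_mul_pow_irreducible ha.ne_zero hx
  exact (u.isUnit.isSMulRegular _).mul (pow_inj h n)⟩

lemma sat_of_lift (hx : Irreducible x) {R M : Type*} [CommRing R] [Algebra O R] [AddCommGroup M]
    [Module O M] [Module R M] [IsScalarTower O R M] [IsTorsionFree O M]
    (hL : Lift R (algebraMap O R x) M)
    {π : MvPolynomial (Fin 2) O →ₐ[O] R} (hπ : Function.Surjective π)
    {ψ : MvPolynomial (Fin 2) O →ₐ[O] End O M} (hψ : ψ = (Algebra.lsmul O O M).comp π)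
    (a : O) (ha : a ≠ 0) (φ u1 u2 : End O M)
    (h1 : ad O (ψ (.X 0)) (ψ (.X 0)) φ = a • u1) (h2 : ad O (ψ (.X 1)) (ψ (.X 1)) φ = a • u2) :
    ∃ φ', ad O (ψ (.X 0)) (ψ (.X 0)) φ' = u1 ∧ ad O (ψ (.X 1)) (ψ (.X 1)) φ' = u2 := by
  have hψa : ∀ p m, ψ p m = π p • m := fun p m => by rw [hψ]; rfl
  have k1 : ∀ p, ∃ u, ψ p * φ - φ * ψ p = a • u := fun p => by
    obtain ⟨s, t, e⟩ := exists_bezout p
    have := (isDer_inner (ψ := ψ) φ).eq_act e
    exact ⟨act ψ s u1 + act ψ t u2, by
      rw [smul_add, ← map_smul, ← map_smul, ← h1, ← h2]; exact this⟩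
  obtain ⟨c, u, hu⟩ := IsDiscreteValuationRing.eq_unit_mul_pow_irreducible ha hx
  obtain ⟨φ0, h0⟩ := hL c (sub R a) (fun m => by
      rw [mem_sub, ← map_pow, hu]
      simp only [algebraMap_smul]
      exact ⟨fun ⟨n, e⟩ => ⟨u.1 • n, by rw [← e, smul_smul, mul_comm]⟩, fun ⟨n, e⟩ =>
        ⟨u⁻¹.1 • n, by rw [← e, smul_smul, mul_comm, u.inv_mul_cancel_left]⟩⟩)
    { (sub R a).mkQ.restrictScalars O ∘ₗ φ with
      map_smul' := fun r m => by
        obtain ⟨p, rfl⟩ := hπ r
        obtain ⟨w, hw⟩ := k1 p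
        have := LinearMap.congr_fun hw m
        simp only [LinearMap.sub_apply, End.mul_apply, hψa, LinearMap.smul_apply] at this
        exact ((Submodule.Quotient.eq _).2 ((mem_sub _ _).2 ⟨_, this.symm⟩)).symm }
  obtain ⟨θ, hθ⟩ := exists_div (smul_right_injective M ha) (φ - φ0.restrictScalars O) fun m =>
    (mem_sub (A := R) _ _).1 ((Submodule.Quotient.eq _).1 (LinearMap.congr_fun h0 m).symm)
  have k5 : ∀ p, ad O (ψ p) (ψ p) (φ0.restrictScalars O) = 0 := fun p => LinearMap.ext fun m => by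
    simp [hψa]
  rw [← sub_add_cancel φ (φ0.restrictScalars O), ← hθ, map_add, k5, add_zero, map_smul] at h1 h2
  exact ⟨_, smul_right_injective _ ha h1, smul_right_injective _ ha h2⟩

/-- The inductive invariant. -/
structure Good (x : O) (A : Type*) [CommRing A] [Algebra O A] : Prop where
  fin : Module.Finite O A
  tf : IsTorsionFree O A
  frob : ∃ l : A →ₗ[O] O, Function.Bijective ((LinearMap.mul O A).compr₂ l)
  hw : HW.{v} A (algebraMap O A x)

open MvPowerSeries in
theorem good_ps [IsPrecomplete (Ideal.span {x}) O] (hx : Irreducible x)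
    {F G : MvPowerSeries (Fin 2) O}
    (h : RingTheory.Sequence.IsRegular (MvPowerSeries (Fin 2) O) [F, G, C x]) :
    Good.{v} x (MvPowerSeries (Fin 2) O ⧸ Ideal.span {F, G}) := by
  obtain ⟨⟨e, he⟩, τ, hτ⟩ := mod_data hx h
  have := tf_quot hx h
  have hI0 : Ideal.span {F, G} ≠ ⊤ := fun e => h.top_ne_smul (by
    rw [Ideal.ofList_cons, Ideal.ofList_cons, ← sup_assoc, ← Ideal.span_insert, e, top_sup_eq,
      Submodule.top_smul])
  have := Ideal.Quotient.nontrivial_iff.2 hI0
  have : Module.Finite O (MvPowerSeries (Fin 2) O ⧸ Ideal.span {F, G}) := .of_surjective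
    (((Ideal.Quotient.mkₐ O _).comp (inc O)).toLinearMap ∘ₗ
      (MvPolynomial.restrictDegree (Fin 2) O e).subtype) fun t =>
    let ⟨p, h1, h2⟩ := cn hx _ he t; ⟨⟨p, h1⟩, h2⟩
  obtain ⟨l, hl⟩ := Module.projective_lifting_property (Algebra.linearMap O (ResidueField O)) τ
    residue_surjective
  refine ⟨‹_›, ‹_›, ⟨l, frob_lift (x := x) hx.not_isUnit l fun a ha => hτ a fun r =>
    (LinearMap.congr_fun hl _).symm.trans ((residue_eq_zero_iff _).2 (ha r))⟩, ?_⟩
  rintro M _ _ _ hM ⟨r, c, ι, ρ, k1, k2⟩ hL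
  let _ := Module.compHom M (algebraMap O (MvPowerSeries (Fin 2) O ⧸ Ideal.span {F, G}))
  have : IsScalarTower O (MvPowerSeries (Fin 2) O ⧸ Ideal.span {F, G}) M :=
    ⟨fun o a m => (congrArg (· • m) (Algebra.smul_def o a)).trans (mul_smul _ _ _)⟩
  have := tf_of hx (M := M) hM
  have : Module.Finite O M := .trans (MvPowerSeries (Fin 2) O ⧸ Ideal.span {F, G}) M
  simp only [← map_pow, algebraMap_smul] at k1 k2
  obtain ⟨f, g, hI, hK⟩ := exists_poly hx he (koszul_of_regular
    ((RingTheory.Sequence.isWeaklyRegular_append_iff _ [F, G] [C x]).1 h.1).1)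
  have hπ : Function.Surjective ((Ideal.Quotient.mkₐ O (Ideal.span {F, G})).comp (inc O)) :=
    fun t => (cn hx _ he t).imp fun _ h => h.2
  obtain ⟨v, v1, v2, v3⟩ := half_ps hx hI0 hI hK he ι _ k1 k2 rfl (sat_of_lift hx hL hπ rfl)
  obtain ⟨w, w1, w2, w3⟩ := half_ps hx hI0 (hI.trans (by rw [Set.pair_comm]))
    (fun u v e => (hK v u e.symm).imp fun _ h => h.symm) he ι _ k1 k2 rfl
    (sat_of_lift hx hL hπ rfl)
  exact higman _ hπ (f := f) (g := g)
    (Ideal.Quotient.eq_zero_iff_mem.2 (hI.ge (Ideal.subset_span (.inl rfl))))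
    (Ideal.Quotient.eq_zero_iff_mem.2 (hI.ge (Ideal.subset_span (.inr rfl)))) w1 v1
    (by rw [v2, v3, w2, w3, mul_one, mul_zero, sub_zero])

lemma art_quot (hx : x ≠ 0) (A : Type*) [CommRing A] [Algebra O A] [Module.Finite O A] (c : ℕ) :
    IsArtinian A (A ⧸ Ideal.span {algebraMap O A x ^ c}) := by
  have := (isFiniteLength_iff_isNoetherian_isArtinian.1 (isFiniteLength_quotient_span_singleton O
    (mem_nonZeroDivisors_of_ne_zero (pow_ne_zero c hx)))).2
  refine isArtinian_of_tower O (art_of_kill (x ^ c) fun y => ?_)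
  obtain ⟨y, rfl⟩ := Ideal.Quotient.mk_surjective y
  rw [Algebra.smul_def, map_pow]
  exact Ideal.Quotient.eq_zero_iff_mem.2
    (Ideal.mul_mem_right y _ (Ideal.mem_span_singleton_self (algebraMap O A x ^ c)))

theorem Good.step (hx : x ≠ 0) {B A : Type*} [CommRing B] [CommRing A] [IsLocalRing A]
    [Algebra O B] [Algebra B A] [Algebra O A] [IsScalarTower O B A] (h : Good.{v} x B)
    (pb : PowerBasis B A) (hg : pb.gen ∈ maximalIdeal A) : Good.{v} x A := by
  obtain ⟨_, _, ⟨l, hl⟩, hw⟩ := h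
  have := pb.finite
  have : Module.Finite O A := .trans B A
  have : IsNoetherianRing B := .of_finite O B
  obtain ⟨C, -⟩ := exists_cas pb
  refine ⟨‹_›, Function.Injective.moduleIsTorsionFree (R := O) pb.basis.equivFun
    pb.basis.equivFun.injective pb.basis.equivFun.toLinearMap.map_smul_of_tower,
    ⟨l ∘ₗ C.τ.restrictScalars O, (injective_iff_map_eq_zero _).2 fun a ha => ?_, fun ξ => ?_⟩, ?_⟩
  · have : ∀ y, C.τ (y * a) = 0 := fun y => hl.1 (LinearMap.ext fun r => by
      have := LinearMap.congr_fun ha (r • y)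
      simpa [mul_comm] using this)
    rw [← C.h1 a]
    simp [this]
  · choose α hα using fun j : Fin C.d =>
      hl.2 (ξ ∘ₗ (LinearMap.toSpanSingleton B A (C.w ^ (j : ℕ))).restrictScalars O)
    refine ⟨∑ j, α j • C.b j, LinearMap.ext fun y => ?_⟩
    conv_rhs => rw [← C.h1 y]
    simp only [map_sum, LinearMap.sum_apply]
    refine Finset.sum_congr rfl fun j _ => ?_
    simpa using LinearMap.congr_fun (hα j) (C.τ (C.b j * y))
  · rw [IsScalarTower.algebraMap_apply O B A]
    refine hw.step pb (art_quot hx B) ?_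
    have := art_quot hx A 1
    obtain ⟨n, y, e⟩ := IsArtinian.exists_pow_succ_smul_dvd pb.gen
      (Ideal.Quotient.mk (Ideal.span {algebraMap O A x ^ 1}) 1)
    obtain ⟨y, rfl⟩ := Ideal.Quotient.mk_surjective y
    obtain ⟨r, hr⟩ := Ideal.mem_span_singleton'.1 ((Submodule.Quotient.eq _).1 e.symm)
    obtain ⟨u, hu⟩ := IsLocalRing.isUnit_one_sub_self_of_mem_nonunits _
      (Ideal.mul_mem_right y _ hg)
    refine ⟨n, r * u⁻¹.1, ?_⟩
    rw [algebraMap_smul, Algebra.smul_def, ← mul_assoc, Units.eq_mul_inv_iff_mul_eq, hu,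
      mul_comm _ r, ← pow_one (algebraMap O A x), hr]
    simp only [smul_eq_mul, Nat.succ_eq_add_one]
    ring

theorem Good.free (hx : Irreducible x) {R : Type*} {A : Type w} [CommRing R] [IsDomain R]
    [IsLocalRing R] [IsNoetherianRing R] [CommRing A] [Algebra O A] [Algebra R A]
    [Module.FaithfullyFlat R A] (M : Type v) [AddCommGroup M] [Module R M] [Module.Finite R M]
    [IsTorsionFree R M] [IsTorsionFree R (M ⊗[R] Dual R M)] (h : Good.{max w v} x A) :
    Module.Free R M := by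
  obtain ⟨_, _, ⟨l, hl⟩, hw⟩ := h
  have : IsNoetherianRing A := .of_finite O A
  have : Module.FinitePresentation R M := Module.finitePresentation_of_finite R M
  have : SMulCommClass R O A := ⟨fun r o a => by simp only [Algebra.smul_def, mul_left_comm]⟩
  obtain ⟨s, j, hj⟩ := exists_emb (R := R) (A := A) M
  have := hj.moduleIsTorsionFree (R := O) j j.map_smul_of_tower
  obtain ⟨s', j', hj'⟩ := exists_emb (R := R) (A := A) (M ⊗[R] Dual R M)
  let e := AlgebraTensorModule.distribBaseChange R A M (Dual R M) ≪≫ₗ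
    TensorProduct.congr (.refl A _) ((Module.FinitePresentation.isBaseChange_map R M R A).equiv ≪≫ₗ
      LinearEquiv.congrRight (AlgebraTensorModule.rid R A A))
  have := (hj'.comp e.symm.injective).moduleIsTorsionFree (R := O) _
    (j' ∘ₗ e.symm.toLinearMap).map_smul_of_tower
  obtain ⟨f, g, a, ha, h1, h2⟩ := exists_isog (R := R) M
  let p := piScalarRight R A A (Fin (finrank R M))
  obtain ⟨b, d, hd, hb⟩ := (Algebra.IsAlgebraic.isAlgebraic (R := O)
    (algebraMap R A a)).exists_smul_eq_mul 1 (mem_nonZeroDivisors_iff_left.2 fun y e =>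
      (smul_eq_zero_iff_right ha).1 ((Algebra.smul_def a y).trans e))
  obtain ⟨c, u, rfl⟩ := IsDiscreteValuationRing.eq_unit_mul_pow_irreducible hd hx
  have hc : (u⁻¹.1 • b) * algebraMap R A a = algebraMap O A x ^ c := by
    rw [smul_mul_assoc, mul_comm, ← hb, smul_smul, u.inv_mul_cancel_left, ← map_pow,
      Algebra.algebraMap_eq_smul_one]
  have : Module.Finite O (A ⊗[R] M) := .trans A _
  have : Module.Finite O ((A ⊗[R] M) ⊗[A] Dual A (A ⊗[R] M)) := .trans A _
  have := hw (A ⊗[R] M)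
    (fun m e => (smul_eq_zero_iff_right hx.ne_zero).1 (by rwa [algebraMap_smul] at e))
    ⟨_, c, f.baseChange A ∘ₗ p.symm.toLinearMap, (u⁻¹.1 • b) • (p.toLinearMap ∘ₗ g.baseChange A),
      fun m => by
        rw [LinearMap.smul_apply, map_smul, ← hc, mul_smul]
        exact congrArg _ ((congrArg _ (p.symm_apply_apply _)).trans (bc_comp f g h1 m)),
      fun m => by
        rw [LinearMap.smul_apply, ← hc, mul_smul]
        exact congrArg _ ((congrArg p (bc_comp g f h2 _)).trans (by
          rw [map_smul]; exact congrArg _ (p.apply_symm_apply m)))⟩ (lift_of_tf hl)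
  have := Module.Flat.of_flat_tensorProduct R M A
  exact Module.free_of_flat_of_isLocalRing

theorem Good.equiv (hx : x ≠ 0) {B A : Type*} [CommRing B] [CommRing A] [IsLocalRing A]
    [Algebra O B] (h : Good.{v} x B) (e : B ≃+* A) : ∃ _ : Algebra O A, Good.{v} x A := by
  let _ := e.toRingHom.toAlgebra
  let _ := (e.toRingHom.comp (algebraMap O B)).toAlgebra
  have : IsScalarTower O B A := .of_algebraMap_eq fun _ => rfl
  let e' : B ≃ₐ[B] A := AlgEquiv.ofRingEquiv (f := e) fun _ => rfl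
  exact ⟨_, h.step hx ⟨0, 1, (Basis.singleton (Fin 1) B).map e'.toLinearEquiv, fun i => by
    simp [Subsingleton.elim i 0]⟩ (zero_mem _)⟩

theorem free_of_tower {R : Type*} [CommRing R] [IsDomain R] [IsLocalRing R] [IsNoetherianRing R]
    [IsAdicComplete (maximalIdeal O) O] (hx : Irreducible x) {F G : MvPowerSeries (Fin 2) O}
    (h : RingTheory.Sequence.IsRegular (MvPowerSeries (Fin 2) O) [F, G, MvPowerSeries.C x])
    (A : ℕ → Type w) [∀ i, CommRing (A i)] [∀ i, IsLocalRing (A i)]
    [∀ i, Algebra (A i) (A (i + 1))] (m : ℕ)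
    (pb : ∀ i < m, ∃ p : PowerBasis (A i) (A (i + 1)), p.gen ∈ maximalIdeal (A (i + 1)))
    (e0 : A 0 ≃+* MvPowerSeries (Fin 2) O ⧸ Ideal.span {F, G})
    (φ : R →+* A m) (hφ : φ.FaithfullyFlat)
    (M : Type v) [AddCommGroup M] [Module R M] [Module.Finite R M] [IsTorsionFree R M]
    [IsTorsionFree R (M ⊗[R] Dual R M)] : Module.Free R M := by
  have : IsPrecomplete (Ideal.span {x}) O := hx.maximalIdeal_eq ▸ inferInstance
  let _ := φ.toAlgebra
  have : Module.FaithfullyFlat R (A m) := hφ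
  have key : ∀ i ≤ m, ∃ _ : Algebra O (A i), Good.{max w v} x (A i) := fun i => by
    induction i with
    | zero => exact fun _ => (good_ps hx h).equiv hx.ne_zero e0.symm
    | succ i ih =>
      intro hi
      obtain ⟨_, hG⟩ := ih (by omega)
      obtain ⟨p, hp⟩ := pb i hi
      let _ := ((algebraMap (A i) (A (i + 1))).comp (algebraMap O (A i))).toAlgebra
      have : IsScalarTower O (A i) (A (i + 1)) := .of_algebraMap_eq fun _ => rfl
      exact ⟨_, hG.step hx.ne_zero p hp⟩
  obtain ⟨_, hG⟩ := key m le_rfl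
  exact hG.free hx M

/-- An isomorphism of the completion gives a faithfully flat map. -/
theorem ff_of_compl {R A : Type*} [CommRing R] [IsLocalRing R] [IsNoetherianRing R] [CommRing A]
    (e : AdicCompletion (maximalIdeal R) R ≃+* A) :
    (e.toRingHom.comp (algebraMap R _)).FaithfullyFlat := by
  let _ := (e.toRingHom.comp (algebraMap R _)).toAlgebra
  have := Module.FaithfullyFlat.of_flat_of_isLocalHom (A := R)
    (B := AdicCompletion (maximalIdeal R) R)
  exact Module.FaithfullyFlat.of_linearEquiv R (AdicCompletion (maximalIdeal R) R)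
    (AlgEquiv.ofRingEquiv (R := R) (f := e) fun _ => rfl).symm.toLinearEquiv

end Pool.Agent.Lib.MP_9e3d42_al.TW
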