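import Pool.Agent.Lib.MP_9e3d42_al.TW.Cas

/-! Rigid lattices: ascent of projectivity along a monogenic extension. -/

open Module

universe v

namespace Pool.Agent.Lib.MP_9e3d42_al.TW

/-- `M` is isogenous to a free module through a power of `x`. -/
def Iso (A : Type*) [CommRing A] (x : A) (M : Type*) [AddCommGroup M] [Module A M] : Prop :=
  ∃ (n c : ℕ) (ι : (Fin n → A) →ₗ[A] M) (ρ : M →ₗ[A] Fin n → A),
    (∀ m, ι (ρ m) = x ^ c • m) ∧ ∀ v, ρ (ι v) = x ^ c • v

/-- Homomorphisms `M → M / x ^ c M` lift to endomorphisms. -/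
def Lift (A : Type*) [CommRing A] (x : A) (M : Type*) [AddCommGroup M] [Module A M] : Prop :=
  ∀ (c : ℕ) (N : Submodule A M), (∀ m, m ∈ N ↔ ∃ n, x ^ c • n = m) →
    ∀ φ : M →ₗ[A] M ⧸ N, ∃ φ0 : M →ₗ[A] M, N.mkQ ∘ₗ φ0 = φ

/-- Rigid lattices isogenous to a free module are projective. -/
def HW (A : Type*) [CommRing A] (x : A) : Prop :=
  ∀ (M : Type v) [AddCommGroup M] [Module A M] [Module.Finite A M],
    (∀ m : M, x • m = 0 → m = 0) → Iso A x M → Lift A x M → Module.Projective A M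

lemma pow_inj {A M : Type*} [CommRing A] [AddCommGroup M] [Module A M] {x : A}
    (h : ∀ m : M, x • m = 0 → m = 0) (c : ℕ) : Function.Injective fun m : M => x ^ c • m := by
  induction c with
  | zero => exact fun a b e => by simpa using e
  | succ c ih =>
    intro a b e
    simp only [pow_succ', mul_smul] at e
    exact ih (sub_eq_zero.1 (h _ (by rw [smul_sub, e, sub_self])))

lemma exists_div {A P M : Type*} [CommRing A] [AddCommGroup M] [Module A M] [AddCommGroup P]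
    [Module A P] {a : A} (h : Function.Injective fun m : M => a • m) (φ : P →ₗ[A] M)
    (hφ : ∀ p, ∃ n, a • n = φ p) : ∃ ψ : P →ₗ[A] M, a • ψ = φ := by
  choose ψ hψ using hφ
  exact ⟨⟨⟨ψ, fun p q => h (by simp only [smul_add, hψ, map_add])⟩, fun r p => h (by
    simp only [RingHom.id_apply, smul_comm a r, hψ, map_smul])⟩, LinearMap.ext hψ⟩

lemma art_of_kill {B N : Type*} [CommRing B] [AddCommGroup N] [Module B N] [Module.Finite B N]
    (a : B) [IsArtinian B (B ⧸ Ideal.span {a})] (hk : ∀ y : N, a • y = 0) : IsArtinian B N := by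
  obtain ⟨s, f, hf⟩ := Module.Finite.exists_fin' B N
  let g : (Fin s → B ⧸ Ideal.span {a}) →ₗ[B] N :=
    ∑ i, (Ideal.span {a}).liftQ (LinearMap.toSpanSingleton B _ (f (Pi.single i 1)))
      (by rw [Ideal.span_le]; rintro _ rfl; exact hk _) ∘ₗ LinearMap.proj i
  refine isArtinian_of_surjective _ g fun y => ?_
  obtain ⟨y, rfl⟩ := hf y
  refine ⟨fun i => Submodule.Quotient.mk (y i), ?_⟩
  conv_rhs => rw [pi_eq_sum_univ' y]
  simp only [g, LinearMap.sum_apply, map_sum, map_smul]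
  rfl

variable {B A : Type*} [CommRing B] [CommRing A] [Algebra B A] (C : Cas B A) {x : B}
  {M : Type*} [AddCommGroup M] [Module A M] [Module B M] [IsScalarTower B A M]

lemma Lift.down (hL : Lift A (algebraMap B A x) M) {c : ℕ} {N : Submodule A M}
    (hN : ∀ m, m ∈ N ↔ ∃ n, x ^ c • n = m) {φ : M →ₗ[B] M ⧸ N} (h : com B C.w φ = 0) :
    ∃ φ0 : M →ₗ[B] M, com B C.w φ0 = 0 ∧ N.mkQ.restrictScalars B ∘ₗ φ0 = φ := by
  obtain ⟨φ0, h0⟩ := hL c N (by simpa only [← map_pow, algebraMap_smul] using hN) (C.toLin h)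
  exact ⟨φ0.restrictScalars B, LinearMap.ext fun m => by simp,
    LinearMap.ext fun m => LinearMap.congr_fun h0 m⟩

/-- The submodule `x ^ c M`. -/
def sub (A : Type*) [CommRing A] [Algebra B A] [Module A M] [IsScalarTower B A M] (a : B) :
    Submodule A M := LinearMap.range (Algebra.lsmul A A M (algebraMap B A a))

lemma mem_sub (a : B) (m : M) : m ∈ sub A a ↔ ∃ n, a • n = m := by
  simp [sub]

lemma h_one (hx : ∀ m : M, x • m = 0 → m = 0) (hI : Iso A (algebraMap B A x) M)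
    (hL : Lift A (algebraMap B A x) M) {φ : M →ₗ[B] M} (h : C.tr φ = 0) :
    ∃ ψ, com B C.w ψ = φ := by
  obtain ⟨n, c, ι, ρ, h1, -⟩ := hI
  simp only [← map_pow, algebraMap_smul] at h1
  obtain ⟨ψ, hψ⟩ := C.free1 (φ := φ ∘ₗ ι.restrictScalars B) (LinearMap.ext fun v => by
    simpa [C.tr_apply] using LinearMap.congr_fun h (ι v))
  have k : ∀ m, com B C.w (ψ ∘ₗ ρ.restrictScalars B) m = x ^ c • φ m := fun m => by
    have := LinearMap.congr_fun hψ (ρ m)
    simpa [h1] using this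
  obtain ⟨φ0, h0, h2⟩ := hL.down C (mem_sub (x ^ c))
    (φ := (sub A (x ^ c)).mkQ.restrictScalars B ∘ₗ ψ ∘ₗ ρ.restrictScalars B)
    (LinearMap.ext fun m => by
      have : (sub A (x ^ c)).mkQ (com B C.w (ψ ∘ₗ ρ.restrictScalars B) m) = 0 :=
        (Submodule.Quotient.mk_eq_zero _).2 ((mem_sub _ _).2 ⟨_, (k m).symm⟩)
      simpa using this)
  obtain ⟨θ, hθ⟩ := exists_div (pow_inj hx c) (ψ ∘ₗ ρ.restrictScalars B - φ0) fun m =>
    (mem_sub (A := A) _ _).1 ((Submodule.Quotient.eq _).1 (LinearMap.congr_fun h2 m).symm)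
  refine ⟨θ, LinearMap.ext fun m => pow_inj hx c ?_⟩
  change (x ^ c • com B C.w θ) m = x ^ c • φ m
  rw [← map_smul, hθ, map_sub, h0, sub_zero, k]

lemma h_zero [IsNoetherianRing B] [Module.Finite B M]
    (hfl : ∀ c : ℕ, IsArtinian B (B ⧸ Ideal.span {x ^ c}))
    (hx : ∀ m : M, x • m = 0 → m = 0) (hI : Iso A (algebraMap B A x) M)
    (hL : Lift A (algebraMap B A x) M) {φ : M →ₗ[B] M} (h : com B C.w φ = 0) :
    ∃ ψ, C.tr ψ = φ := by
  have H1 := fun φ => h_one C hx hI hL (φ := φ)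
  obtain ⟨n, c, ι, ρ, h1, h2⟩ := hI
  simp only [← map_pow, algebraMap_smul] at h1 h2
  let j : ((Fin n → A) →ₗ[B] M) →ₗ[B] M →ₗ[B] M := LinearMap.lcomp B M (ρ.restrictScalars B)
  have hj : ∀ ψ, j ψ = 0 → ψ = 0 := fun ψ e => LinearMap.ext fun v => pow_inj hx c (by
    have := LinearMap.congr_fun e (ι v)
    simpa [j, h2] using this)
  have ju : ∀ ψ, com B C.w (j ψ) = j (com B C.w ψ) := fun ψ => LinearMap.ext fun m => by simp [j]
  have jt : ∀ ψ, C.tr (j ψ) = j (C.tr ψ) := fun ψ => LinearMap.ext fun m => by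
    simp [j, C.tr_apply]
  let U := LinearMap.range j
  let u := U.mapQ U (com B C.w) (by rintro _ ⟨ψ, rfl⟩; exact ⟨_, (ju ψ).symm⟩)
  let t := U.mapQ U C.tr (by rintro _ ⟨ψ, rfl⟩; exact ⟨_, (jt ψ).symm⟩)
  have : IsArtinian B ((M →ₗ[B] M) ⧸ U) := have := hfl c; art_of_kill (x ^ c) fun y => by
    obtain ⟨y, rfl⟩ := U.mkQ_surjective y
    rw [← map_smul]
    exact (Submodule.Quotient.mk_eq_zero _).2
      ⟨y ∘ₗ ι.restrictScalars B, LinearMap.ext fun m => by simp [j, h1]⟩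
  have key := herbrand u t (by
      rintro _ ⟨y, rfl⟩
      obtain ⟨y, rfl⟩ := U.mkQ_surjective y
      exact congrArg U.mkQ (C.com_tr C.w y))
    (le_antisymm (fun y hy => by
      obtain ⟨y, rfl⟩ := U.mkQ_surjective y
      obtain ⟨ψ, hψ⟩ := (Submodule.Quotient.mk_eq_zero U).1 hy
      obtain ⟨ψ', rfl⟩ := C.free0 (hj _ (by rw [← ju, hψ, C.com_tr]))
      obtain ⟨θ, hθ⟩ := H1 (y - j ψ') (by rw [map_sub, jt, hψ, sub_self])
      exact ⟨U.mkQ θ, (Submodule.Quotient.eq U).2 ⟨-ψ', by rw [hθ, map_neg]; abel⟩⟩) (by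
      rintro _ ⟨y, rfl⟩
      obtain ⟨y, rfl⟩ := U.mkQ_surjective y
      exact congrArg U.mkQ (C.tr_com C.w y)))
  obtain ⟨y, hy⟩ := key.le (show U.mkQ φ ∈ LinearMap.ker u from congrArg U.mkQ h)
  obtain ⟨y, rfl⟩ := U.mkQ_surjective y
  obtain ⟨ψ, hψ⟩ := (Submodule.Quotient.eq U).1 hy
  obtain ⟨ψ', rfl⟩ := C.free0 (hj _ (by rw [← ju, hψ, map_sub, C.com_tr, h, sub_zero]))
  exact ⟨y - j ψ', by rw [map_sub, jt, hψ, sub_sub_cancel]⟩

lemma com_nil {P G : Type*} [AddCommGroup P] [Module A P] [Module B P] [IsScalarTower B A P]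
    [AddCommGroup G] [Module A G] [Module B G] [IsScalarTower B A G] (w : A) (k : ℕ)
    (h1 : ∀ g : G, w ^ k • g = 0) (h2 : ∀ (φ : P →ₗ[B] G) m, φ (w ^ k • m) = 0) :
    IsNilpotent (com B w : End B (P →ₗ[B] G)) := by
  refine Commute.isNilpotent_sub (x := LinearMap.llcomp B P G G (Algebra.lsmul B B G w))
    (y := LinearMap.lcomp B G (Algebra.lsmul B B P w)) rfl ⟨k, ?_⟩ ⟨k, ?_⟩
  · have : ∀ (k : ℕ) (φ : P →ₗ[B] G) m,
        ((LinearMap.llcomp B P G G (Algebra.lsmul B B G w) ^ k) φ) m = w ^ k • φ m := fun k => by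
      induction k with
      | zero => simp
      | succ k ih => intro φ m; rw [pow_succ, End.mul_apply, ih, pow_succ, mul_smul]; rfl
    exact LinearMap.ext fun φ => LinearMap.ext fun m => (this _ _ _).trans (h1 _)
  · have : ∀ (k : ℕ) (φ : P →ₗ[B] G) m,
        ((LinearMap.lcomp B G (Algebra.lsmul B B P w) ^ k) φ) m = φ (w ^ k • m) := fun k => by
      induction k with
      | zero => simp
      | succ k ih => intro φ m; rw [pow_succ, End.mul_apply, ih, pow_succ', mul_smul]; rfl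
    exact LinearMap.ext fun φ => LinearMap.ext fun m => (this _ _ _).trans (h2 _ _)

lemma lift_down [IsNoetherianRing B] [Module.Finite B M]
    (hfl : ∀ c : ℕ, IsArtinian B (B ⧸ Ideal.span {x ^ c}))
    (hnil : ∃ (e : ℕ) (r : A), C.w ^ e = x • r)
    (hx : ∀ m : M, x • m = 0 → m = 0) (hI : Iso A (algebraMap B A x) M)
    (hL : Lift A (algebraMap B A x) M) : Lift B x M := by
  intro c N hN φ
  obtain rfl : N = (sub A (x ^ c)).restrictScalars B :=
    Submodule.ext fun m => (hN m).trans (mem_sub (A := A) _ _).symm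
  let q := (sub A (x ^ c) : Submodule A M).mkQ.restrictScalars B
  suffices ∀ φ : M →ₗ[B] M ⧸ (sub A (x ^ c) : Submodule A M), ∃ φ0 : M →ₗ[B] M, q ∘ₗ φ0 = φ by
    let e := Submodule.Quotient.restrictScalarsEquiv B (sub A (x ^ c) : Submodule A M)
    obtain ⟨φ0, h0⟩ := this (e.toLinearMap ∘ₗ φ)
    exact ⟨φ0, LinearMap.ext fun m => e.injective (LinearMap.congr_fun h0 m)⟩
  have hq : ∀ m : M, q (x ^ c • m) = 0 := fun m =>
    (Submodule.Quotient.mk_eq_zero _).2 ((mem_sub _ _).2 ⟨m, rfl⟩)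
  have qu : ∀ ψ : M →ₗ[B] M, com B C.w (q ∘ₗ ψ) = q ∘ₗ com B C.w ψ := fun ψ =>
    LinearMap.ext fun m => by simp [q]
  have qt : ∀ ψ : M →ₗ[B] M, C.tr (q ∘ₗ ψ) = q ∘ₗ C.tr ψ := fun ψ =>
    LinearMap.ext fun m => by simp [q, C.tr_apply]
  have step : ∀ φ : M →ₗ[B] M ⧸ (sub A (x ^ c) : Submodule A M), (∃ l : M →ₗ[B] M, q ∘ₗ l = com B C.w φ) →
      ∃ φ0 : M →ₗ[B] M, q ∘ₗ φ0 = φ := by
    rintro φ ⟨l, hl⟩
    have hz : q ∘ₗ C.tr l = 0 := by rw [← qt, hl, C.tr_com]
    obtain ⟨μ, hμ⟩ := exists_div (pow_inj hx c) (C.tr l) fun m => (mem_sub (A := A) _ _).1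
      ((Submodule.Quotient.mk_eq_zero _).1 (LinearMap.congr_fun hz m :))
    obtain ⟨ν, rfl⟩ := h_zero C hfl hx hI hL (φ := μ) (LinearMap.ext fun m => pow_inj hx c (by
      change (x ^ c • com B C.w μ) m = x ^ c • (0 : M)
      rw [← map_smul, hμ, C.com_tr, smul_zero, LinearMap.zero_apply]))
    obtain ⟨l', hl'⟩ := h_one C hx hI hL (φ := l - x ^ c • ν)
      (by rw [map_sub, map_smul, hμ, sub_self])
    obtain ⟨φ0, -, h0⟩ := hL.down C (mem_sub (x ^ c)) (φ := φ - q ∘ₗ l') (by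
      rw [map_sub, qu, hl', ← hl]
      exact LinearMap.ext fun m => by simpa using hq (ν m))
    exact ⟨φ0 + l', by rw [LinearMap.comp_add, h0, sub_add_cancel]⟩
  obtain ⟨e, r, he⟩ := hnil
  have hw : C.w ^ (e * c) = x ^ c • r ^ c := by rw [pow_mul, he, smul_pow]
  obtain ⟨n, hn⟩ := com_nil (B := B) (P := M) (G := M ⧸ (sub A (x ^ c) : Submodule A M)) C.w
    (e * c) (fun g => by
      obtain ⟨y, rfl⟩ := (sub A (x ^ c)).mkQ_surjective g
      rw [← map_smul, hw, smul_assoc]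
      exact hq _) fun φ m => by
      obtain ⟨y, hy⟩ := (sub A (x ^ c)).mkQ_surjective (φ (r ^ c • m))
      rw [hw, smul_assoc, map_smul, ← hy]
      exact (q.map_smul _ _).symm.trans (hq _)
  have : ∀ (k : ℕ) (φ : M →ₗ[B] M ⧸ (sub A (x ^ c) : Submodule A M)), (com B C.w ^ k) φ = 0 →
      ∃ φ0 : M →ₗ[B] M, q ∘ₗ φ0 = φ := fun k => by
    induction k with
    | zero => exact fun φ h => ⟨0, (LinearMap.comp_zero _).trans (Eq.symm h)⟩
    | succ k ih => exact fun φ h => step φ (ih _ (by rwa [pow_succ] at h))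
  exact fun φ => this n φ (by rw [hn]; rfl)

lemma iso_down [Nontrivial B] [Module.Free B A] [Module.Finite B A]
    (hI : Iso A (algebraMap B A x) M) : Iso B x M := by
  obtain ⟨n, c, ι, ρ, h1, h2⟩ := hI
  simp only [← map_pow, algebraMap_smul] at h1 h2
  let e := (Module.finBasis B (Fin n → A)).equivFun
  exact ⟨_, c, ι.restrictScalars B ∘ₗ e.symm.toLinearMap, e.toLinearMap ∘ₗ ρ.restrictScalars B,
    fun m => by simp [h1], fun v => by simp [h2]⟩

open TensorProduct in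
lemma proj_up [Module.Projective B M] {φ : M →ₗ[B] M} (h : C.tr φ = LinearMap.id) :
    Module.Projective A M := by
  refine Module.Projective.of_split (M := A ⊗[B] M)
    (C.toLin (C.com_tr C.w (TensorProduct.mk B A M 1 ∘ₗ φ)))
    (LinearMap.liftBaseChange A LinearMap.id) (LinearMap.ext fun m => ?_)
  change LinearMap.liftBaseChange A LinearMap.id (C.tr _ m) = m
  conv_rhs => rw [← LinearMap.id_apply (R := B) m, ← h]
  simp [C.tr_apply]

theorem HW.step [Nontrivial A] [IsNoetherianRing B] (pb : PowerBasis B A)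
    (hfl : ∀ c : ℕ, IsArtinian B (B ⧸ Ideal.span {x ^ c}))
    (hnil : ∃ (e : ℕ) (r : A), pb.gen ^ e = x • r) (h : HW.{v} B x) :
    HW.{v} A (algebraMap B A x) := by
  intro M _ _ _ hx hI hL
  obtain ⟨C, hC⟩ := exists_cas pb
  let _ := Module.compHom M (algebraMap B A)
  have : IsScalarTower B A M := IsScalarTower.of_algebraMap_smul fun _ _ => rfl
  have := pb.finite
  have := Module.Free.of_basis pb.basis
  have := (algebraMap B A).domain_nontrivial
  have : Module.Finite B M := .trans A M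
  replace hx : ∀ m : M, x • m = 0 → m = 0 := hx
  have := h M hx (iso_down hI) (lift_down C hfl (hC ▸ hnil) hx hI hL)
  obtain ⟨φ, hφ⟩ := h_zero C hfl hx hI hL (φ := LinearMap.id) (LinearMap.ext fun m => by simp)
  exact proj_up C hφ

end Pool.Agent.Lib.MP_9e3d42_al.TW
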